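import Pool.Agent.helper80.Sched.Main

/-!
# Preemptive two-machine equal-length weighted tardiness scheduling is polynomial for fixed `p`

One program `P` solves all the problems `Π_p`: the program `full P p` (which first stores the
constant `p` and then runs `P`) decides on the input `(n, w, d, K)` whether some preemptive
schedule has total weighted tardiness at most `K`, and it also computes the least total weighted
tardiness, in time `c * (p * L) ^ 14` under the logarithmic cost criterion, where `L` is the size
of the input.

Main steps of the proof:
* sorted completion times `C₁ ≤ ⋯ ≤ Cₙ` are feasible iff `p ≤ C₁` and `(r + 1) p ≤ C_r + C_{r+1}`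
  (`necessity`, `greedy`);
* rounding by a random shift shows that half-integral completion times suffice (`exists_theta`);
* a decomposition at the position of a lightest job (`decomp`) gives the recurrence of a dynamic
  program over pairs of states (position, offset) (`costs_join`, `costs_split`);
* the dynamic program is written in a small imperative language and verified (`qA_spec`), and its
  logarithmic cost is bounded (`time_full`).
-/

namespace Pool.Agent.Results.MP_df8bb0_lc.PolyTime

open Pool.Agent.helper80.Sched

/-- For every processing time `p ≥ 1`, the problem `P2 | pmtn, p_j = p | ∑ w_j T_j` is solved in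
polynomial time; the same program works for all `p`, in time polynomial in `p` and in the size of
the input. -/
theorem result :
    ∃ (P : Prog) (c : ℕ), ∀ p : ℕ, 1 ≤ p → ∀ (n : ℕ) (w d : Fin n → ℕ) (K : ℕ),
      (full P p).time (input n w d K) ≤ c * (p * inputSize n w d K) ^ 14 ∧
      ((full P p).exec (input n w d K) 5 (0, 0, 0, 0, 0) = 1 ↔
        ∃ S : Schedule n p, S.cost w d ≤ K) ∧
      IsLeast {x : ℝ | ∃ S : Schedule n p, S.cost w d = x}
        (((full P p).exec (input n w d K) 6 (0, 0, 0, 0, 0) : ℝ) / 2) := by
  obtain ⟨c, hc⟩ := time_full
  refine ⟨qA, c, fun p hp n w d K => ⟨hc p hp n w d K, ?_, ?_⟩⟩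
  · obtain ⟨v, h6, h5, hv⟩ := qA_spec n p w d K
    have hex : (full qA p).exec (input n w d K) = qA.exec (start n p w d K) := rfl
    rw [hex]
    have h5' : qA.exec (start n p w d K) 5 (0, 0, 0, 0, 0) = if v ≤ 2 * K then 1 else 0 := h5
    rw [h5']
    constructor
    · intro h
      have hvK : v ≤ 2 * K := by
        by_contra h'
        rw [if_neg h'] at h
        exact absurd h (by norm_num)
      obtain ⟨S, hS⟩ := hv.1
      refine ⟨S, ?_⟩
      have : (v : ℝ) ≤ 2 * K := by exact_mod_cast hvK
      rw [hS]; linarith
    · rintro ⟨S, hS⟩
      have h1 := hv.2 ⟨S, rfl⟩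
      have h2 : (v : ℝ) ≤ 2 * K := by linarith
      rw [if_pos (by exact_mod_cast h2)]
  · obtain ⟨v, h6, h5, hv⟩ := qA_spec n p w d K
    have hex : (full qA p).exec (input n w d K) = qA.exec (start n p w d K) := rfl
    rw [hex]
    have h6' : qA.exec (start n p w d K) 6 (0, 0, 0, 0, 0) = v := h6
    rw [h6']
    exact hv

end Pool.Agent.Results.MP_df8bb0_lc.PolyTime
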